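import Mathlib

/-!
# A 3-outerplanar triangulated disc without two completely independent spanning trees (MP_6a18d8_co)

The question asks whether every 3-connected triangulated disc whose embedding is 3-outerplanar has
two completely independent spanning trees. We give a counterexample with 28 vertices: take the
hexagonal antiprism (outer hexagon `0, ..., 5`, inner hexagon `6, ..., 11`), triangulate the inner
hexagon with the triangle `6, 8, 10`, and put a new vertex of degree 3 into each of the sixteen
bounded faces.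

Plane graphs are given by rotation systems satisfying Euler's formula.
-/

set_option autoImplicit false

namespace Pool.Agent.Results.MP_6a18d8_co.AntiprismDisc

open SimpleGraph

/-! ### Definitions -/

/-- The face permutation of a rotation system: walk along the dart `d` from `u` to `v` and continue
with the dart that follows the reversed dart `(v, u)` in the rotation at `v`. Its cycles are the
faces. -/
def facePerm {V : Type} {G : SimpleGraph V} (rot : Equiv.Perm G.Dart) : Equiv.Perm G.Dart :=
  (Function.Involutive.toPerm _ (Dart.symm_involutive (G := G))).trans rot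

/-- A *plane graph* on the vertex set `V`: a connected simple graph embedded in the sphere, with a
distinguished (outer) face. The embedding is given combinatorially: `rot` permutes the darts
(oriented edges) and its cycles are exactly the sets of darts leaving a common vertex (the cyclic
order of the edges around that vertex); the faces are the cycles of `facePerm rot`, and the
embedding is in the sphere because `|V| - |E| + |F| = 2`. The outer face is the one containing the
dart `outer`. -/
structure PlaneGraph (V : Type) where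
  /-- the underlying simple graph -/
  graph : SimpleGraph V
  /-- the rotation system -/
  rot : Equiv.Perm graph.Dart
  /-- a dart on the outer face -/
  outer : graph.Dart
  connected : graph.Connected
  rot_fst : ∀ d, (rot d).fst = d.fst
  rot_cycle : ∀ d d' : graph.Dart, d.fst = d'.fst → rot.SameCycle d d'
  euler : Nat.card V + Nat.card (Quotient (Equiv.Perm.SameCycle.setoid (facePerm rot))) =
    Nat.card graph.edgeSet + 2

namespace PlaneGraph

variable {V : Type} (P : PlaneGraph V)

/-- Two darts lie on the same face. -/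
def SameFace (d d' : P.graph.Dart) : Prop := (facePerm P.rot).SameCycle d d'

/-- A *triangulated disc*: every face other than the outer one is a triangle (its boundary walk
closes up after three darts). -/
def IsTriangulatedDisc : Prop :=
  ∀ d : P.graph.Dart, ¬ P.SameFace P.outer d →
    facePerm P.rot (facePerm P.rot (facePerm P.rot d)) = d

/-- The darts on the faces that are contained in the outer face of the plane graph obtained by
deleting the vertex set `D`: the outer face itself, and every face that can be reached from it by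
repeatedly crossing deleted edges (edges with an end in `D`). -/
inductive OuterRegion (D : Set V) : P.graph.Dart → Prop
  | outer : OuterRegion D P.outer
  | face (d : P.graph.Dart) : OuterRegion D d → OuterRegion D (facePerm P.rot d)
  | cross (d : P.graph.Dart) : OuterRegion D d → d.fst ∈ D ∨ d.snd ∈ D → OuterRegion D d.symm

/-- The set of vertices on the outer face of the plane graph obtained by deleting the vertex
set `D`. -/
def outerVertices (D : Set V) : Set V :=
  {v | v ∉ D ∧ ∃ d : P.graph.Dart, P.OuterRegion D d ∧ d.fst = v}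

/-- `L₃`: the vertices on the outer face. -/
def L₃ : Set V := P.outerVertices ∅

/-- `L₂`: the vertices on the outer face after deleting `L₃`. -/
def L₂ : Set V := P.outerVertices P.L₃

/-- `L₁`: the vertices on the outer face after also deleting `L₂`. -/
def L₁ : Set V := P.outerVertices (P.L₃ ∪ P.L₂)

/-- The embedding is *3-outerplanar*: three deletions of the vertices on the outer face remove
every vertex. -/
def IsThreeOuterplanar : Prop := P.L₁ ∪ P.L₂ ∪ P.L₃ = Set.univ

end PlaneGraph

/-- `G` is 3-connected: it has at least four vertices and it stays connected whenever at most two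
vertices are deleted. -/
def ThreeConnected {V : Type} (G : SimpleGraph V) : Prop :=
  4 ≤ Nat.card V ∧ ∀ S : Finset V, S.card ≤ 2 → (G.induce {v | v ∉ S}).Connected

/-- `T₁` and `T₂` are *completely independent* (for spanning trees): for every two distinct
vertices `u`, `v` the `u`-`v` paths in `T₁` and `T₂` have no common edge and no common vertex other
than `u` and `v`. -/
def CompletelyIndependent {V : Type} (T₁ T₂ : SimpleGraph V) : Prop :=
  ∀ u v : V, u ≠ v → ∀ (p : T₁.Walk u v) (q : T₂.Walk u v), p.IsPath → q.IsPath →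
    (∀ e ∈ p.edges, e ∉ q.edges) ∧ ∀ w ∈ p.support, w ∈ q.support → w = u ∨ w = v

/-- `G` has two completely independent spanning trees. -/
def HasTwoCISTs {V : Type} (G : SimpleGraph V) : Prop :=
  ∃ T₁ T₂ : SimpleGraph V, T₁ ≤ G ∧ T₂ ≤ G ∧ T₁.IsTree ∧ T₂.IsTree ∧
    CompletelyIndependent T₁ T₂

/-! ### The data of the example -/

/-- Row `u` is the bitmask of the neighbours of `u`. -/
def adjL : List ℕ :=
  [274658, 549253, 1098506, 2197012, 4394024, 8525905, 193207713, 34349379, 119031494, 70288652,
   224463704, 146932848, 97, 131, 262, 524, 1048, 2096, 193, 386, 772, 1544, 3088, 2144, 1344,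
   448, 1792, 3136]

/-- Row `u`, base-32 digit `v`: the neighbour of `u` following `v` in the rotation at `u`. -/
def nxtL : List ℕ :=
  [8665580318808679565760659616, 316912652676495024886929948685,
   11408855524835593717836918325696, 405648197248747092457346505391104,
   14278816566488165950205171979517952, 249230249635213615502475637638037508,
   435870267475946884780471255869072670195724, 340282366967980184956219078795499405746,
   12518669267114937461445060476978289719904, 13611294808673201037828729451327531765760,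
   490014589291506331909832806124287662129152, 261337078467897382412550852125549114949632,
   201326597, 34359738375, 2199023256832, 105553116341248, 4503599630843904, 180143985240571904,
   7516192774, 1374389534944, 80264348835840, 3729543441711104, 156500087061610496,
   216172787851591680, 9013807061925888, 7911329759232, 10425569254572032, 367043381441855488]

/-- Row `u`, base-32 digit `v`: the neighbour of `u` preceding `v` in the rotation at `u`. -/
def prvL : List ℕ :=
  [7427640499731306835756450208, 277298578244658168654091794434,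
   10141205143016814318386097389664, 365083385030546151674920235438080,
   12980742575505735845167531341021184, 456922123705807343751374812993290252,
   479471354963443151152004857912618272161810, 255211775507616497691481821602539111021,
   13917017127316538674975267881908248269248, 10889036149653524217654679604014311193600,
   273597671228911627379926667837693418274816, 435561684081347494867804458617479126581248,
   5368709126, 225, 1099511636032, 70368744475648, 3377699731144704, 144115188450197504,
   206158430215, 7730941133056, 283673999975424, 10238652278177792, 364791569828544512,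
   180143997107306496, 6766403147268096, 6879463866368, 9368938580279296, 228557691826470912]

/-- Row `u`, base-64 digit `v`: the number of the face on the side of the dart `(u, v)`. -/
def labL : List ℕ :=
  [1947111323480607101162032751181888, 228461061969262778251154622894862336,
   21267647951263154247794316309372600320, 1786482427934345463961657771947437588480,
   141557464767222339588126675206081840414720, 10453474311922782850553966790976959944851460,
   222201869273881403173248362331910595045736004452358,
   44244678474716497365835830605329787296224903877,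
   4075505786579212166867845678712165478266036093568,
   3745097949592295139451006456643966938257082871808,
   197029626376923886986483651393350992411661203144704,
   274762319796149064381303529687064422496052220788736, 1997159792642, 21990232556033,
   2814749767160256, 270215977646997504, 23058430092527271936, 1844674407401389031424,
   154343944749059, 11307377580048960, 779122735535153152, 53412691580619063296,
   3571750821272414584832, 2213609291210599432192, 41516998313891594240, 10588228256006144,
   51550734609673093120, 2858092412188116385792]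

/-- One dart of every face. -/
def repL : List (ℕ × ℕ) :=
  [(0, 5), (0, 1), (0, 6), (0, 7), (0, 12), (0, 13), (0, 18), (1, 2), (1, 7), (1, 8), (1, 14),
   (1, 19), (2, 3), (2, 8), (2, 9), (2, 15), (2, 20), (3, 4), (3, 9), (3, 10), (3, 16), (3, 21),
   (4, 5), (4, 10), (4, 11), (4, 17), (4, 22), (5, 6), (5, 11), (5, 12), (5, 23), (6, 7), (6,
   8), (6, 10), (6, 11), (6, 18), (6, 24), (6, 25), (6, 27), (7, 8), (7, 19), (8, 9), (8, 10),
   (8, 20), (8, 26), (9, 10), (9, 21), (10, 11), (10, 22)]

/-- All darts. -/
def dartL : List (ℕ × ℕ) :=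
  [(0, 1), (0, 5), (0, 6), (0, 7), (0, 12), (0, 13), (0, 18), (1, 0), (1, 2), (1, 7), (1, 8),
   (1, 13), (1, 14), (1, 19), (2, 1), (2, 3), (2, 8), (2, 9), (2, 14), (2, 15), (2, 20), (3, 2),
   (3, 4), (3, 9), (3, 10), (3, 15), (3, 16), (3, 21), (4, 3), (4, 5), (4, 10), (4, 11), (4,
   16), (4, 17), (4, 22), (5, 0), (5, 4), (5, 6), (5, 11), (5, 12), (5, 17), (5, 23), (6, 0),
   (6, 5), (6, 7), (6, 8), (6, 10), (6, 11), (6, 12), (6, 18), (6, 23), (6, 24), (6, 25), (6,
   27), (7, 0), (7, 1), (7, 6), (7, 8), (7, 13), (7, 18), (7, 19), (7, 25), (8, 1), (8, 2), (8,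
   6), (8, 7), (8, 9), (8, 10), (8, 14), (8, 19), (8, 20), (8, 24), (8, 25), (8, 26), (9, 2),
   (9, 3), (9, 8), (9, 10), (9, 15), (9, 20), (9, 21), (9, 26), (10, 3), (10, 4), (10, 6), (10,
   8), (10, 9), (10, 11), (10, 16), (10, 21), (10, 22), (10, 24), (10, 26), (10, 27), (11, 4),
   (11, 5), (11, 6), (11, 10), (11, 17), (11, 22), (11, 23), (11, 27), (12, 0), (12, 5), (12,
   6), (13, 0), (13, 1), (13, 7), (14, 1), (14, 2), (14, 8), (15, 2), (15, 3), (15, 9), (16, 3),
   (16, 4), (16, 10), (17, 4), (17, 5), (17, 11), (18, 0), (18, 6), (18, 7), (19, 1), (19, 7),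
   (19, 8), (20, 2), (20, 8), (20, 9), (21, 3), (21, 9), (21, 10), (22, 4), (22, 10), (22, 11),
   (23, 5), (23, 6), (23, 11), (24, 6), (24, 8), (24, 10), (25, 6), (25, 7), (25, 8), (26, 8),
   (26, 9), (26, 10), (27, 6), (27, 10), (27, 11)]

/-- The faces of the subgraph on the first twelve vertices. -/
def faceL : List (ℕ × ℕ × ℕ) :=
  [(5, 0, 6), (0, 1, 7), (1, 2, 8), (2, 3, 9), (3, 4, 10), (4, 5, 11), (7, 6, 0), (8, 7, 1), (9,
   8, 2), (10, 9, 3), (11, 10, 4), (6, 11, 5), (6, 8, 10), (6, 7, 8), (8, 9, 10), (10, 11, 6)]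

/-- Adjacency of the example. -/
def adjB (u v : ℕ) : Bool := (adjL.getD u 0).testBit v

/-- The next neighbour in the rotation. -/
def nxtN (u v : ℕ) : ℕ := ((nxtL.getD u 0) >>> (5 * v)) % 32

/-- The previous neighbour in the rotation. -/
def prvN (u v : ℕ) : ℕ := ((prvL.getD u 0) >>> (5 * v)) % 32

/-- The number of the face. -/
def labN (u v : ℕ) : ℕ := ((labL.getD u 0) >>> (6 * v)) % 64

theorem adj_table₁ : ∀ u < 28, ∀ v < 28, adjB u v = true →
    adjB v u = true ∧ u ≠ v ∧ nxtN u v < 28 ∧ prvN u v < 28 := by
  decide +kernel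

theorem adj_table₂ : ∀ u < 28, ∀ v < 28, adjB u v = true → adjB u (nxtN u v) = true ∧
    adjB u (prvN u v) = true ∧ prvN u (nxtN u v) = v ∧ nxtN u (prvN u v) = v := by
  decide +kernel

theorem adj_table (u : ℕ) (hu : u < 28) (v : ℕ) (hv : v < 28) (h : adjB u v = true) :
    adjB v u = true ∧ u ≠ v ∧ nxtN u v < 28 ∧ prvN u v < 28 ∧ adjB u (nxtN u v) = true ∧
    adjB u (prvN u v) = true ∧ prvN u (nxtN u v) = v ∧ nxtN u (prvN u v) = v := by
  obtain ⟨h1, h2, h3, h4⟩ := adj_table₁ u hu v hv h
  exact ⟨h1, h2, h3, h4, adj_table₂ u hu v hv h⟩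

/-- The graph of the example. -/
def G : SimpleGraph (Fin 28) where
  Adj u v := adjB u.val v.val = true
  symm := ⟨fun u v h => (adj_table u.val u.isLt v.val v.isLt h).1⟩
  loopless := ⟨fun u h => (adj_table u.val u.isLt u.val u.isLt h).2.1 rfl⟩

instance : DecidableRel G.Adj := fun u v => inferInstanceAs (Decidable (adjB u.val v.val = true))

theorem adj_iff {u v : Fin 28} : G.Adj u v ↔ adjB u.val v.val = true := Iff.rfl

/-- The dart `(u, v)`. -/
def mk (u v : ℕ) (hu : u < 28) (hv : v < 28) (h : adjB u v = true) : G.Dart :=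
  ⟨(⟨u, hu⟩, ⟨v, hv⟩), h⟩

theorem dart_adj (d : G.Dart) : adjB d.fst.val d.snd.val = true := d.adj

theorem dart_ext {d d' : G.Dart} (h1 : d.fst.val = d'.fst.val) (h2 : d.snd.val = d'.snd.val) :
    d = d' := by
  apply Dart.ext
  exact Prod.ext (Fin.ext h1) (Fin.ext h2)

/-- The rotation. -/
def rotG : Equiv.Perm G.Dart where
  toFun d := mk d.fst.val (nxtN d.fst.val d.snd.val) d.fst.isLt
    (adj_table _ d.fst.isLt _ d.snd.isLt (dart_adj d)).2.2.1
    (adj_table _ d.fst.isLt _ d.snd.isLt (dart_adj d)).2.2.2.2.1
  invFun d := mk d.fst.val (prvN d.fst.val d.snd.val) d.fst.isLt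
    (adj_table _ d.fst.isLt _ d.snd.isLt (dart_adj d)).2.2.2.1
    (adj_table _ d.fst.isLt _ d.snd.isLt (dart_adj d)).2.2.2.2.2.1
  left_inv d := dart_ext rfl (adj_table _ d.fst.isLt _ d.snd.isLt (dart_adj d)).2.2.2.2.2.2.1
  right_inv d := dart_ext rfl (adj_table _ d.fst.isLt _ d.snd.isLt (dart_adj d)).2.2.2.2.2.2.2

theorem rot_fst (d : G.Dart) : (rotG d).fst = d.fst := rfl

theorem rot_snd (d : G.Dart) : (rotG d).snd.val = nxtN d.fst.val d.snd.val := rfl

theorem iter_rot (k : ℕ) (d : G.Dart) : ((rotG ^ k) d).fst = d.fst ∧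
    ((rotG ^ k) d).snd.val = (nxtN d.fst.val)^[k] d.snd.val := by
  induction k with
  | zero => exact ⟨rfl, rfl⟩
  | succ k ih =>
    rw [pow_succ', Equiv.Perm.mul_apply, Function.iterate_succ_apply']
    refine ⟨(rot_fst _).trans ih.1, ?_⟩
    rw [rot_snd, ih.1, ih.2]

theorem cycle_table : ∀ u < 28, ∀ v < 28, adjB u v = true → ∀ w < 28, adjB u w = true →
    ∃ k < 20, (nxtN u)^[k] v = w := by
  decide +kernel

theorem rot_cycle (d d' : G.Dart) (h : d.fst = d'.fst) : rotG.SameCycle d d' := by
  obtain ⟨k, -, hk⟩ := cycle_table d.fst.val d.fst.isLt d.snd.val d.snd.isLt (dart_adj d)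
    d'.snd.val d'.snd.isLt (by rw [h]; exact dart_adj d')
  refine ⟨k, ?_⟩
  rw [zpow_natCast]
  refine dart_ext ?_ ?_
  · rw [(iter_rot k d).1, h]
  · rw [(iter_rot k d).2, hk]

/-- The face permutation of the example. -/
abbrev φ : Equiv.Perm G.Dart := facePerm rotG

theorem φ_fst (d : G.Dart) : (φ d).fst = d.snd := rfl

theorem φ_snd (d : G.Dart) : (φ d).snd.val = nxtN d.snd.val d.fst.val := rfl

/-- The face permutation on pairs. -/
def φN (p : ℕ × ℕ) : ℕ × ℕ := (p.2, nxtN p.2 p.1)

theorem iter_φ (k : ℕ) (d : G.Dart) :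
    (((φ ^ k) d).fst.val, ((φ ^ k) d).snd.val) = φN^[k] (d.fst.val, d.snd.val) := by
  induction k with
  | zero => rfl
  | succ k ih =>
    rw [pow_succ', Equiv.Perm.mul_apply, Function.iterate_succ_apply', ← ih]
    rfl

theorem face_table : ∀ u < 28, ∀ v < 28, adjB u v = true →
    labN v (nxtN v u) = labN u v ∧ labN u v < 49 ∧
    ∃ k < 6, φN^[k] (u, v) = repL.getD (labN u v) (0, 0) := by
  decide +kernel

theorem rep_table : ∀ l < 49, (repL.getD l (0, 0)).1 < 28 ∧ (repL.getD l (0, 0)).2 < 28 ∧
    adjB (repL.getD l (0, 0)).1 (repL.getD l (0, 0)).2 = true ∧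
    labN (repL.getD l (0, 0)).1 (repL.getD l (0, 0)).2 = l := by
  decide +kernel

/-- The label of the face of a dart. -/
def lab (d : G.Dart) : Fin 49 :=
  ⟨labN d.fst.val d.snd.val, (face_table _ d.fst.isLt _ d.snd.isLt (dart_adj d)).2.1⟩

theorem lab_φ (d : G.Dart) : lab (φ d) = lab d :=
  Fin.ext (face_table _ d.fst.isLt _ d.snd.isLt (dart_adj d)).1

theorem lab_zpow (k : ℤ) (d : G.Dart) : lab ((φ ^ k) d) = lab d := by
  induction k using Int.induction_on with
  | zero => rfl
  | succ k ih =>
    rw [add_comm, zpow_add, zpow_one, Equiv.Perm.mul_apply, lab_φ, ih]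
  | pred k ih =>
    rw [← ih, ← lab_φ ((φ ^ (-(k : ℤ) - 1)) d), ← Equiv.Perm.mul_apply, ← zpow_one_add]
    congr 3
    ring

/-- The representative of a face. -/
def rep (l : Fin 49) : G.Dart :=
  mk (repL.getD l.val (0, 0)).1 (repL.getD l.val (0, 0)).2 (rep_table l.val l.isLt).1
    (rep_table l.val l.isLt).2.1 (rep_table l.val l.isLt).2.2.1

theorem lab_rep (l : Fin 49) : lab (rep l) = l := Fin.ext (rep_table l.val l.isLt).2.2.2

theorem sameCycle_rep (d : G.Dart) : φ.SameCycle d (rep (lab d)) := by
  obtain ⟨k, -, hk⟩ := (face_table _ d.fst.isLt _ d.snd.isLt (dart_adj d)).2.2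
  refine ⟨k, ?_⟩
  rw [zpow_natCast]
  have h := iter_φ k d
  rw [hk] at h
  have h1 := congrArg Prod.fst h
  have h2 := congrArg Prod.snd h
  exact dart_ext h1 h2

theorem sameCycle_iff (d d' : G.Dart) : φ.SameCycle d d' ↔ lab d = lab d' := by
  constructor
  · rintro ⟨k, rfl⟩
    exact (lab_zpow k d).symm
  · intro h
    exact (sameCycle_rep d).trans (h ▸ (sameCycle_rep d').symm)

theorem card_faces : Nat.card (Quotient (Equiv.Perm.SameCycle.setoid φ)) = 49 := by
  let f : Quotient (Equiv.Perm.SameCycle.setoid φ) → Fin 49 :=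
    Quotient.lift lab (fun a b h => (sameCycle_iff a b).mp h)
  have hf : Function.Bijective f := by
    constructor
    · rintro ⟨a⟩ ⟨b⟩ h
      exact Quotient.sound ((sameCycle_iff a b).mpr h)
    · intro l
      exact ⟨⟦rep l⟧, lab_rep l⟩
  rw [Nat.card_congr (Equiv.ofBijective f hf), Nat.card_fin]

theorem card_edges : Nat.card G.edgeSet = 75 := by
  have h : ∑ v, G.degree v = 150 := by decide +kernel
  rw [G.sum_degrees_eq_twice_card_edges] at h
  rw [Nat.card_eq_fintype_card, ← edgeFinset_card]
  omega

/-! ### Breadth first search on bitmasks -/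

/-- The union of the rows of `l` selected by the bits of `X`, starting with bit `i`. -/
def nbrs : List ℕ → ℕ → ℕ → ℕ
  | [], _, _ => 0
  | a :: l, i, X => (if X.testBit i then a else 0) ||| nbrs l (i + 1) X

theorem nbrs_testBit (l : List ℕ) (i X j : ℕ) : (nbrs l i X).testBit j = true ↔
    ∃ t < l.length, X.testBit (i + t) = true ∧ (l.getD t 0).testBit j = true := by
  induction l generalizing i with
  | nil => simp [nbrs]
  | cons a l ih =>
    rw [nbrs, Nat.testBit_or, Bool.or_eq_true, ih (i + 1)]
    constructor
    · rintro (h | ⟨t, ht, h1, h2⟩)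
      · by_cases hX : X.testBit i = true
        · exact ⟨0, by simp, by simpa using hX, by simpa [hX] using h⟩
        · simp [hX] at h
      · refine ⟨t + 1, by simpa using ht, ?_, by simpa using h2⟩
        rwa [show i + (t + 1) = i + 1 + t by ring]
    · rintro ⟨t, ht, h1, h2⟩
      rcases t with _ | t
      · left
        simp only [add_zero] at h1
        simpa [h1] using h2
      · right
        refine ⟨t, by simpa using ht, ?_, by simpa using h2⟩
        rwa [show i + 1 + t = i + (t + 1) by ring]

/-- One step of the search inside the mask `M`. -/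
def step (M X : ℕ) : ℕ := X ||| (nbrs adjL 0 X &&& M)

theorem adjL_length : adjL.length = 28 := by decide

theorem step_testBit (M X j : ℕ) : (step M X).testBit j = true ↔ X.testBit j = true ∨
    (M.testBit j = true ∧ ∃ i < 28, X.testBit i = true ∧ adjB i j = true) := by
  rw [step, Nat.testBit_or, Nat.testBit_and, Bool.or_eq_true, Bool.and_eq_true, nbrs_testBit,
    adjL_length]
  simp only [zero_add, adjB]
  tauto

/-- The result of the search from `X` inside the mask `M`. -/
def clos (M X : ℕ) : ℕ := step M (step M (step M (step M (step M (step M X)))))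

theorem clos_sound (M X : ℕ) (Q : ℕ → Prop) (h0 : ∀ i, X.testBit i = true → Q i)
    (hs : ∀ i < 28, ∀ j, Q i → adjB i j = true → M.testBit j = true → Q j) :
    ∀ i, (clos M X).testBit i = true → Q i := by
  have key : ∀ Y, (∀ i, Y.testBit i = true → Q i) → ∀ i, (step M Y).testBit i = true → Q i := by
    intro Y hY j hj
    rcases (step_testBit M Y j).mp hj with h | ⟨h, i, hi, h1, h2⟩
    · exact hY j h
    · exact hs i hi j (hY i h1) h2 h
  exact key _ (key _ (key _ (key _ (key _ (key _ h0)))))


theorem tri_table : ∀ u < 28, ∀ v < 28, adjB u v = true → labN u v ≠ 0 →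
    φN (φN (φN (u, v))) = (u, v) := by
  decide +kernel

/-- If the search from `s` inside `M` reaches all of `M`, then the corresponding induced subgraph
is connected. -/
theorem connected_of_clos (S : Set (Fin 28)) (M : ℕ) (s : Fin 28) (hs : s ∈ S)
    (hM : ∀ i : Fin 28, M.testBit i.val = true ↔ i ∈ S) (h : clos M (2 ^ s.val) = M) :
    (G.induce S).Connected := by
  have key : ∀ i, (clos M (2 ^ s.val)).testBit i = true →
      ∀ hi : i < 28, ∃ hS : (⟨i, hi⟩ : Fin 28) ∈ S,
        (G.induce S).Reachable ⟨s, hs⟩ ⟨⟨i, hi⟩, hS⟩ := by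
    have := clos_sound M (2 ^ s.val) (fun i => i < 28 ∧ ∀ hi : i < 28,
      ∃ hS : (⟨i, hi⟩ : Fin 28) ∈ S, (G.induce S).Reachable ⟨s, hs⟩ ⟨⟨i, hi⟩, hS⟩) ?_ ?_
    · intro i hi hi'
      exact (this i hi).2 hi'
    · intro i hi
      rw [Nat.testBit_two_pow] at hi
      have hi' : s.val = i := by simpa using hi
      subst hi'
      exact ⟨s.isLt, fun _ => ⟨hs, Reachable.refl _⟩⟩
    · intro i hi j hQ hadj hMj
      have hj : j < 28 := by
        by_contra hj
        have h1 := (show ∀ i < 28, adjL.getD i 0 < 2 ^ 28 by decide +kernel) i hi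
        have h2 : (adjL.getD i 0).testBit j = false :=
          Nat.testBit_lt_two_pow (lt_of_lt_of_le h1 (Nat.pow_le_pow_right (by norm_num) (by omega)))
        rw [adjB, h2] at hadj
        exact absurd hadj (by simp)
      refine ⟨hj, fun _ => ?_⟩
      obtain ⟨hS, hr⟩ := hQ.2 hi
      have hjS : (⟨j, hj⟩ : Fin 28) ∈ S := (hM ⟨j, hj⟩).mp hMj
      refine ⟨hjS, hr.trans (Adj.reachable ?_)⟩
      exact hadj
  rw [h] at key
  have : Nonempty S := ⟨⟨s, hs⟩⟩
  have hreach : ∀ a : S, (G.induce S).Reachable ⟨s, hs⟩ a := by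
    rintro ⟨a, ha⟩
    obtain ⟨_, hr⟩ := key a.val ((hM a).mpr ha) a.isLt
    exact hr
  exact ⟨fun a b => (hreach a).symm.trans (hreach b)⟩

/-- The mask of all vertices except `a` and `b`. -/
def mask2 (a b : ℕ) : ℕ := 268435455 ^^^ (2 ^ a ||| 2 ^ b)

/-- A vertex different from `a` and `b`. -/
def other (a b : ℕ) : ℕ := if a ≠ 0 ∧ b ≠ 0 then 0 else if a ≠ 1 ∧ b ≠ 1 then 1 else 2

theorem mask2_table : ∀ a < 28, ∀ b < 28, ∀ i < 28, (mask2 a b).testBit i = true ↔
    (i ≠ a ∧ i ≠ b) := by
  decide +kernel

theorem other_table : ∀ a < 28, ∀ b < 28, other a b < 28 ∧ other a b ≠ a ∧ other a b ≠ b := by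
  decide +kernel

theorem conn_table : ∀ a < 28, ∀ b < 28, clos (mask2 a b) (2 ^ (other a b)) = mask2 a b := by
  decide +kernel

theorem conn2 (a b : Fin 28) : (G.induce {v | v ≠ a ∧ v ≠ b}).Connected := by
  obtain ⟨h1, h2, h3⟩ := other_table a.val a.isLt b.val b.isLt
  refine connected_of_clos _ (mask2 a.val b.val) ⟨other a.val b.val, h1⟩ ?_ ?_
    (conn_table a.val a.isLt b.val b.isLt)
  · exact ⟨fun h => h2 (congrArg Fin.val h), fun h => h3 (congrArg Fin.val h)⟩
  · intro i
    rw [mask2_table a.val a.isLt b.val b.isLt i.val i.isLt]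
    simp only [Set.mem_ofPred_eq, ne_eq, Fin.ext_iff]

theorem conn0 : (G.induce {v | v ∉ (∅ : Finset (Fin 28))}).Connected := by
  refine connected_of_clos _ 268435455 0 (by simp) ?_ (by decide +kernel)
  intro i
  have := (show ∀ i < 28, (268435455).testBit i = true by decide +kernel) i.val i.isLt
  simp [this]

theorem G_connected : G.Connected := by
  have h := conn0
  have e : {v | v ∉ (∅ : Finset (Fin 28))} = Set.univ := by
    ext v; simp
  rw [e] at h
  exact (induceUnivIso G).connected_iff.mp h

theorem threeConnected : ThreeConnected G := by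
  refine ⟨by rw [Nat.card_fin]; norm_num, fun S hS => ?_⟩
  have h012 : S.card = 0 ∨ S.card = 1 ∨ S.card = 2 := by omega
  rcases h012 with h | h | h
  · rw [Finset.card_eq_zero] at h
    subst h
    exact conn0
  · obtain ⟨a, rfl⟩ := Finset.card_eq_one.mp h
    have e : {v | v ∉ ({a} : Finset (Fin 28))} = {v | v ≠ a ∧ v ≠ a} := by
      ext v; simp
    rw [e]
    exact conn2 a a
  · obtain ⟨a, b, -, rfl⟩ := Finset.card_eq_two.mp h
    have e : {v | v ∉ ({a, b} : Finset (Fin 28))} = {v | v ≠ a ∧ v ≠ b} := by
      ext v; simp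
    rw [e]
    exact conn2 a b

/-- The outer dart. -/
def outerD : G.Dart := mk 0 5 (by norm_num) (by norm_num) (by decide)

/-- The example as a plane graph. -/
abbrev P : PlaneGraph (Fin 28) where
  graph := G
  rot := rotG
  outer := outerD
  connected := G_connected
  rot_fst := rot_fst
  rot_cycle := rot_cycle
  euler := by
    have h := card_faces
    rw [Nat.card_fin, card_edges]
    change 28 + Nat.card (Quotient (Equiv.Perm.SameCycle.setoid φ)) = 75 + 2
    rw [h]

theorem lab_outer : lab outerD = 0 := Fin.ext (by decide)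

theorem triangulated : P.IsTriangulatedDisc := by
  intro d hd
  have hd' : ¬ φ.SameCycle outerD d := hd
  rw [sameCycle_iff, lab_outer] at hd'
  have h0 : labN d.fst.val d.snd.val ≠ 0 := fun h => hd' (Fin.ext h.symm)
  have h := tri_table _ d.fst.isLt _ d.snd.isLt (dart_adj d) h0
  have h3 := iter_φ 3 d
  have h4 : φN^[3] (d.fst.val, d.snd.val) = (d.fst.val, d.snd.val) := h
  rw [h4] at h3
  have h5 : (φ ^ 3) d = φ (φ (φ d)) := rfl
  change φ (φ (φ d)) = d
  rw [← h5]
  exact dart_ext (congrArg Prod.fst h3) (congrArg Prod.snd h3)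

/-! ### The layers -/

theorem region_sameCycle (D : Set (Fin 28)) (d d' : G.Dart) (h : φ.SameCycle d d')
    (hd : P.OuterRegion D d) : P.OuterRegion D d' := by
  obtain ⟨k, -, rfl⟩ := h.exists_pow_eq'
  clear h
  induction k with
  | zero => exact hd
  | succ k ih =>
    rw [pow_succ', Equiv.Perm.mul_apply]
    exact PlaneGraph.OuterRegion.face _ ih

theorem region_lab (D : Set (Fin 28)) (d d' : G.Dart) (h : lab d = lab d')
    (hd : P.OuterRegion D d) : P.OuterRegion D d' :=
  region_sameCycle D d d' ((sameCycle_iff d d').mpr h) hd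

/-- One pass of the search for the faces in the outer region. -/
def stepF (D : ℕ) : List (ℕ × ℕ) → ℕ → ℕ
  | [], R => R
  | p :: l, R => stepF D l (if R.testBit (labN p.1 p.2) && (D.testBit p.1 || D.testBit p.2) then
      R ||| 2 ^ (labN p.2 p.1) else R)

theorem stepF_sound (D : ℕ) (Q : ℕ → Prop) (l : List (ℕ × ℕ))
    (hl : ∀ p ∈ l, Q (labN p.1 p.2) → D.testBit p.1 = true ∨ D.testBit p.2 = true →
      Q (labN p.2 p.1)) (R : ℕ) (hR : ∀ i, R.testBit i = true → Q i) :
    ∀ i, (stepF D l R).testBit i = true → Q i := by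
  induction l generalizing R with
  | nil => exact hR
  | cons p l ih =>
    rw [stepF]
    refine ih (fun p hp => hl p (List.mem_cons_of_mem _ hp)) _ ?_
    intro i hi
    split_ifs at hi with h
    · rw [Nat.testBit_or, Bool.or_eq_true] at hi
      rcases hi with hi | hi
      · exact hR i hi
      · rw [Nat.testBit_two_pow] at hi
        have hi' : labN p.2 p.1 = i := by simpa using hi
        rw [Bool.and_eq_true, Bool.or_eq_true] at h
        rw [← hi']
        exact hl p (List.mem_cons_self) (hR _ h.1) h.2
    · exact hR i hi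

theorem dartL_table : ∀ p ∈ dartL, p.1 < 28 ∧ p.2 < 28 ∧ adjB p.1 p.2 = true := by
  decide +kernel

/-- The faces found by four passes. -/
def reg (D : ℕ) : ℕ := stepF D dartL (stepF D dartL (stepF D dartL (stepF D dartL 1)))

theorem reg_sound (D : ℕ) (S : Set (Fin 28)) (hS : ∀ v : Fin 28, D.testBit v.val = true → v ∈ S)
    (d : G.Dart) (h : (reg D).testBit (lab d).val = true) : P.OuterRegion S d := by
  have hstep : ∀ p ∈ dartL, (∀ d : G.Dart, (lab d).val = labN p.1 p.2 → P.OuterRegion S d) →
      D.testBit p.1 = true ∨ D.testBit p.2 = true →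
      (∀ d : G.Dart, (lab d).val = labN p.2 p.1 → P.OuterRegion S d) := by
    intro p hp h1 h2 e he
    obtain ⟨hp1, hp2, hadj⟩ := dartL_table p hp
    have h3 : P.OuterRegion S (mk p.1 p.2 hp1 hp2 hadj) := h1 _ rfl
    have h4 : P.OuterRegion S (mk p.1 p.2 hp1 hp2 hadj).symm := by
      refine PlaneGraph.OuterRegion.cross _ h3 ?_
      rcases h2 with h2 | h2
      · exact Or.inl (hS ⟨p.1, hp1⟩ h2)
      · exact Or.inr (hS ⟨p.2, hp2⟩ h2)
    have h5 : lab (mk p.1 p.2 hp1 hp2 hadj).symm = lab e := Fin.ext he.symm
    exact region_lab S _ e h5 h4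
  have h1 : ∀ i, (1 : ℕ).testBit i = true →
      ∀ d : G.Dart, (lab d).val = i → P.OuterRegion S d := by
    intro i hi d hd
    have hi' : i = 0 := by
      by_contra h0
      have : (1 : ℕ).testBit i = false :=
        Nat.testBit_lt_two_pow (Nat.one_lt_two_pow h0)
      rw [this] at hi
      exact absurd hi (by simp)
    refine region_lab S outerD d ?_ PlaneGraph.OuterRegion.outer
    rw [lab_outer]
    exact Fin.ext (by rw [hd, hi']; rfl)
  have := stepF_sound D (fun i => ∀ d : G.Dart, (lab d).val = i → P.OuterRegion S d) dartL hstep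
    _ (stepF_sound D _ dartL hstep _ (stepF_sound D _ dartL hstep _
      (stepF_sound D _ dartL hstep 1 h1)))
  exact this _ h d rfl

theorem L₃_table : ∀ v < 28, (v < 6 ↔ ∃ w < 28, adjB v w = true ∧ labN v w = 0) := by
  decide +kernel

theorem region_empty (d : P.graph.Dart) (h : P.OuterRegion ∅ d) : lab d = 0 := by
  induction h with
  | outer => exact lab_outer
  | face d _ ih => exact (lab_φ d).trans ih
  | cross d _ h _ => simp at h

theorem L₃_eq : P.L₃ = {v | v.val < 6} := by
  ext v
  simp only [PlaneGraph.L₃, PlaneGraph.outerVertices, Set.mem_ofPred_eq]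
  rw [L₃_table v.val v.isLt]
  constructor
  · rintro ⟨-, d, hd, rfl⟩
    exact ⟨d.snd.val, d.snd.isLt, dart_adj d, congrArg Fin.val (region_empty d hd)⟩
  · rintro ⟨w, hw, h1, h2⟩
    refine ⟨by simp, mk v.val w v.isLt hw h1, ?_, rfl⟩
    refine region_lab ∅ outerD _ ?_ PlaneGraph.OuterRegion.outer
    rw [lab_outer]
    exact Fin.ext h2.symm

theorem L₂_table : ∀ v < 24, 6 ≤ v → ∃ w < 28, adjB v w = true ∧
    (reg 63).testBit (labN v w) = true := by
  decide +kernel

theorem L₁_table : ∀ v < 28, 24 ≤ v → ∃ w < 28, adjB v w = true ∧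
    (reg 16777215).testBit (labN v w) = true := by
  decide +kernel

theorem threeOuterplanar : P.IsThreeOuterplanar := by
  have h3 : ∀ v : Fin 28, v.val < 6 → v ∈ P.L₃ := by
    intro v hv
    rw [L₃_eq]; exact hv
  have h2 : ∀ v : Fin 28, v.val < 24 → 6 ≤ v.val → v ∈ P.L₂ := by
    intro v hv hv'
    obtain ⟨w, hw, h, hr⟩ := L₂_table v.val hv hv'
    refine ⟨?_, mk v.val w v.isLt hw h, ?_, rfl⟩
    · rw [L₃_eq]
      simp only [Set.mem_ofPred_eq]
      omega
    · refine reg_sound 63 P.L₃ ?_ _ hr
      intro x hx
      apply h3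
      by_contra hx'
      have : (63 : ℕ).testBit x.val = false :=
        Nat.testBit_lt_two_pow (lt_of_lt_of_le (by norm_num : 63 < 2 ^ 6)
          (Nat.pow_le_pow_right (by norm_num) (by omega)))
      rw [this] at hx
      exact absurd hx (by simp)
  rw [PlaneGraph.IsThreeOuterplanar, Set.eq_univ_iff_forall]
  intro v
  by_cases hv3 : v ∈ P.L₃
  · exact Or.inr hv3
  by_cases hv2 : v ∈ P.L₂
  · exact Or.inl (Or.inr hv2)
  left; left
  have hv6 : 6 ≤ v.val := by
    by_contra h
    exact hv3 (h3 v (by omega))
  have hv24 : 24 ≤ v.val := by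
    by_contra h
    exact hv2 (h2 v (by omega) hv6)
  obtain ⟨w, hw, h, hr⟩ := L₁_table v.val v.isLt hv24
  refine ⟨?_, mk v.val w v.isLt hw h, ?_, rfl⟩
  · rintro (h | h)
    · exact hv3 h
    · exact hv2 h
  · refine reg_sound 16777215 (P.L₃ ∪ P.L₂) ?_ _ hr
    intro x hx
    have hx24 : x.val < 24 := by
      by_contra hx'
      have : (16777215 : ℕ).testBit x.val = false :=
        Nat.testBit_lt_two_pow (lt_of_lt_of_le (by norm_num : 16777215 < 2 ^ 24)
          (Nat.pow_le_pow_right (by norm_num) (by omega)))
      rw [this] at hx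
      exact absurd hx (by simp)
    by_cases hx6 : x.val < 6
    · exact Or.inl (h3 x hx6)
    · exact Or.inr (h2 x hx24 (by omega))

/-! ### Internal vertices of completely independent spanning trees -/

/-- `v` has two neighbours in `T`. -/
def Internal {V : Type} (T : SimpleGraph V) (v : V) : Prop :=
  ∃ x y, x ≠ y ∧ T.Adj v x ∧ T.Adj v y

/-- `s` and `t` are joined by a walk avoiding `v`. -/
def Avoid {V : Type} (T : SimpleGraph V) (v s t : V) : Prop :=
  ∃ p : T.Walk s t, v ∉ p.support

section Trees

variable {V : Type} {T T₁ T₂ : SimpleGraph V} {v : V}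

theorem Avoid.refl {s : V} (h : s ≠ v) : Avoid T v s s :=
  ⟨Walk.nil, by simpa using h.symm⟩

theorem Avoid.symm {s t : V} (h : Avoid T v s t) : Avoid T v t s := by
  obtain ⟨p, hp⟩ := h
  exact ⟨p.reverse, by simpa using hp⟩

theorem Avoid.trans {s t r : V} (h : Avoid T v s t) (h' : Avoid T v t r) : Avoid T v s r := by
  obtain ⟨p, hp⟩ := h
  obtain ⟨q, hq⟩ := h'
  refine ⟨p.append q, ?_⟩
  rw [Walk.mem_support_append_iff]
  tauto

theorem not_avoid (hT : T.IsTree) {x y : V} (hxy : x ≠ y) (hx : T.Adj v x) (hy : T.Adj v y) :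
    ¬ Avoid T v x y := by
  classical
  rintro ⟨p, hp⟩
  have hq : (Walk.cons hx.symm (Walk.cons hy Walk.nil) : T.Walk x y).IsPath := by
    simp [Walk.isPath_def, hxy, hx.ne.symm, hy.ne]
  have h : (⟨p.bypass, p.bypass_isPath⟩ : T.Path x y) = ⟨_, hq⟩ :=
    (hT.2.subsingleton_path x y).elim _ _
  have h' := congrArg (fun r : T.Path x y => r.1.support) h
  have h1 : v ∈ (Walk.cons hx.symm (Walk.cons hy Walk.nil) : T.Walk x y).support := by simp
  apply hp
  apply Walk.support_bypass_subset_support p
  simp only at h'
  rw [h']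
  exact h1

theorem not_internal_both (h₁ : T₁.IsTree) (h₂ : T₂.IsTree) (h : CompletelyIndependent T₁ T₂)
    (hv₁ : Internal T₁ v) (hv₂ : Internal T₂ v) : False := by
  classical
  obtain ⟨x₁, y₁, hxy₁, hx₁, hy₁⟩ := hv₁
  obtain ⟨x₂, y₂, hxy₂, hx₂, hy₂⟩ := hv₂
  have n₁ := not_avoid h₁ hxy₁ hx₁ hy₁
  have n₂ := not_avoid h₂ hxy₂ hx₂ hy₂
  have key : ∀ s t, s ≠ v → t ≠ v → Avoid T₁ v s t ∨ Avoid T₂ v s t := by
    intro s t hs ht
    by_contra hcon
    rw [not_or] at hcon
    have hst : s ≠ t := by
      rintro rfl
      exact hcon.1 (Avoid.refl hs)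
    obtain ⟨p⟩ := h₁.1.preconnected s t
    obtain ⟨q⟩ := h₂.1.preconnected s t
    have hp : v ∈ p.bypass.support := by
      by_contra hp
      exact hcon.1 ⟨_, hp⟩
    have hq : v ∈ q.bypass.support := by
      by_contra hq
      exact hcon.2 ⟨_, hq⟩
    rcases (h s t hst _ _ p.bypass_isPath q.bypass_isPath).2 v hp hq with h' | h'
    · exact hs h'.symm
    · exact ht h'.symm
  have e₁ := hx₁.ne.symm
  have e₂ := hy₁.ne.symm
  have e₃ := hx₂.ne.symm
  have e₄ := hy₂.ne.symm
  have r₁ : Avoid T₂ v x₁ y₁ := (key _ _ e₁ e₂).resolve_left n₁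
  have r₂ : Avoid T₁ v x₂ y₂ := (key _ _ e₃ e₄).resolve_right n₂
  rcases key _ _ e₁ e₃ with h' | h'
  · have a : ¬ Avoid T₁ v y₁ x₂ := fun c => n₁ (h'.trans c.symm)
    have b : ¬ Avoid T₁ v y₁ y₂ := fun c => n₁ ((h'.trans r₂).trans c.symm)
    have a' := (key _ _ e₂ e₃).resolve_left a
    have b' := (key _ _ e₂ e₄).resolve_left b
    exact n₂ (a'.symm.trans b')
  · have a : ¬ Avoid T₂ v y₂ x₁ := fun c => n₂ (h'.symm.trans c.symm)
    have b : ¬ Avoid T₂ v y₂ y₁ := fun c => n₂ ((h'.symm.trans r₁).trans c.symm)
    have a' := (key _ _ e₄ e₁).resolve_right a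
    have b' := (key _ _ e₄ e₂).resolve_right b
    exact n₁ (a'.symm.trans b')

end Trees

/-! ### The example has no two completely independent spanning trees -/

theorem far_table : ∀ w < 28, 12 ≤ w → ∃ z < 28, z ≠ w ∧ adjB w z = false := by
  decide +kernel

theorem ins_table₁ : ∀ w < 28, 12 ≤ w → ∀ x < 28, adjB w x = true → x < 12 := by
  decide +kernel

theorem ins_table₂ : ∀ w < 28, 12 ≤ w → ∀ x < 28, ∀ y < 28,
    (!(adjB w x) || (!(adjB w y) || (x == y || adjB x y))) = true := by
  decide +kernel

theorem ins_table (w : ℕ) (hw : w < 28) (hw' : 12 ≤ w) (x : ℕ) (hx : x < 28)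
    (h : adjB w x = true) : x < 12 ∧
    ∀ y < 28, adjB w y = true → x ≠ y → adjB x y = true :=
  ⟨ins_table₁ w hw hw' x hx h, fun y hy hy' hxy => by
    have := ins_table₂ w hw hw' x hx y hy
    rw [h, hy'] at this
    simpa [hxy] using this⟩

theorem exists_internal {T : SimpleGraph (Fin 28)} (hT : T ≤ G) (hc : T.Connected) (w : Fin 28)
    (hw : 12 ≤ w.val) : ∃ x, G.Adj w x ∧ Internal T x := by
  classical
  obtain ⟨z, hz, hzw, hadj⟩ := far_table w.val w.isLt hw
  obtain ⟨p₀⟩ := hc.preconnected w ⟨z, hz⟩
  have hp := p₀.bypass_isPath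
  generalize p₀.bypass = p at hp
  cases p with
  | nil => exact absurd rfl hzw
  | cons h q =>
    rename_i x
    cases q with
    | nil =>
      have := hT h
      rw [adj_iff] at this
      simp only at this
      rw [this] at hadj
      exact absurd hadj (by simp)
    | cons h' q' =>
      rename_i y
      refine ⟨x, hT h, w, y, ?_, h.symm, h'⟩
      rintro rfl
      rw [Walk.cons_isPath_iff] at hp
      apply hp.2
      simp

/-- Closed subsets of a base set containing the internal base vertices are everything. -/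
theorem closed_eq {T : SimpleGraph (Fin 28)} (hT : T ≤ G) (A X : Fin 28 → Prop)
    (hAint : ∀ i : Fin 28, i.val < 12 → Internal T i → A i)
    (hcl : ∀ i j, X i → A j → G.Adj i j → X j) :
    ∀ n : ℕ, ∀ u t : Fin 28, ∀ p : T.Walk u t, p.IsPath → p.length ≤ n → X u → A t → X t := by
  intro n
  induction n with
  | zero =>
    intro u t p hp hn hu ht
    cases p with
    | nil => exact hu
    | cons h q => simp at hn
  | succ n ih =>
    intro u t p hp hn hu ht
    cases p with
    | nil => exact hu
    | cons h q =>
      rename_i v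
      have hq : q.IsPath := hp.of_cons
      cases q with
      | nil => exact hcl u t hu ht (hT h)
      | cons h' q' =>
        rename_i x
        have hux : u ≠ x := by
          rintro rfl
          rw [Walk.cons_isPath_iff] at hp
          apply hp.2
          simp
        have hvint : Internal T v := ⟨u, x, hux, h.symm, h'⟩
        by_cases hv : v.val < 12
        · have hAv := hAint v hv hvint
          refine ih v t (Walk.cons h' q') hq ?_ (hcl u v hu hAv (hT h)) ht
          simp only [Walk.length_cons] at hn ⊢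
          omega
        · have hv' : 12 ≤ v.val := by omega
          have hvu : adjB v.val u.val = true := hT h.symm
          have hvx : adjB v.val x.val = true := hT h'
          obtain ⟨hu12, huy⟩ := ins_table v.val v.isLt hv' u.val u.isLt hvu
          obtain ⟨hx12, _⟩ := ins_table v.val v.isLt hv' x.val x.isLt hvx
          have hadj : G.Adj u x := huy x.val x.isLt hvx (fun h => hux (Fin.ext h))
          have hq' : q'.IsPath := hq.of_cons
          have hlen : q'.length ≤ n := by
            simp only [Walk.length_cons] at hn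
            omega
          cases q' with
          | nil => exact hcl u t hu ht hadj
          | cons h'' q'' =>
            rename_i y
            have hvy : v ≠ y := by
              rintro rfl
              rw [Walk.cons_isPath_iff] at hq
              apply hq.2
              simp
            have hAx := hAint x hx12 ⟨v, y, hvy, h'.symm, h''⟩
            exact ih x t (Walk.cons h'' q'') hq' hlen (hcl u x hu hAx hadj) ht

/-- The lowest bit of a mask. -/
def low (m : ℕ) : ℕ := m ^^^ (m &&& (m - 1))

/-- A mask is cut if the search from its lowest vertex does not reach all of it. -/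
def cut (m : ℕ) : Bool :=
  let X := clos m (low m)
  (X &&& m == X) && (step m X == X) && (X != 0) && (X != m)

/-- A face is monochromatic. -/
def mono (m : ℕ) : Bool := faceL.any fun f =>
  (m.testBit f.1 == m.testBit f.2.1) && (m.testBit f.1 == m.testBit f.2.2)

theorem colour_table' : ∀ a < 64, ∀ b < 64,
    (mono (64 * a + b) || (cut (64 * a + b) || cut (4095 ^^^ (64 * a + b)))) = true := by
  decide +kernel

theorem colour_table (m : ℕ) (hm : m < 4096) :
    (mono m || (cut m || cut (4095 ^^^ m))) = true := by
  have := colour_table' (m / 64) (by omega) (m % 64) (by omega)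
  rwa [Nat.div_add_mod] at this

theorem face_ins_table : ∀ f ∈ faceL, ∃ w < 28, 12 ≤ w ∧ ∀ x < 28, adjB w x = true →
    x = f.1 ∨ x = f.2.1 ∨ x = f.2.2 := by
  decide +kernel

/-- A cut mask gives a contradiction. -/
theorem not_cut {T : SimpleGraph (Fin 28)} (hT : T ≤ G) (hc : T.Connected) (m : ℕ)
    (hm : m < 4096) (hint : ∀ i : Fin 28, i.val < 12 → Internal T i → m.testBit i.val = true) :
    cut m = false := by
  classical
  by_contra hcut
  rw [Bool.not_eq_false] at hcut
  simp only [cut, Bool.and_eq_true, beq_iff_eq, bne_iff_ne, ne_eq] at hcut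
  generalize clos m (low m) = X at hcut
  obtain ⟨⟨⟨h1, h2⟩, h3⟩, h4⟩ := hcut
  have hm12 : ∀ i, m.testBit i = true → i < 12 := by
    intro i hi
    by_contra h
    have : m.testBit i = false := Nat.testBit_lt_two_pow
      (lt_of_lt_of_le hm (Nat.pow_le_pow_right (n := 2) (by norm_num) (by omega : 12 ≤ i)))
    rw [this] at hi
    exact absurd hi (by simp)
  have hXm : ∀ i, X.testBit i = true → m.testBit i = true := by
    intro i hi
    rw [← h1, Nat.testBit_and, Bool.and_eq_true] at hi
    exact hi.2
  obtain ⟨i, hi⟩ : ∃ i, X.testBit i = true := by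
    by_contra hne
    push Not at hne
    apply h3
    apply Nat.eq_of_testBit_eq
    intro i
    rw [Nat.zero_testBit]
    simpa using hne i
  obtain ⟨j, hj, hj'⟩ : ∃ j, m.testBit j = true ∧ X.testBit j = false := by
    by_contra hne
    push Not at hne
    apply h4
    apply Nat.eq_of_testBit_eq
    intro j
    by_cases hj : m.testBit j = true
    · have := hne j hj
      rw [hj]
      simpa using this
    · have h5 : ¬ X.testBit j = true := fun h => hj (hXm j h)
      rw [Bool.not_eq_true] at hj h5
      rw [hj, h5]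
  have hi12 := hm12 i (hXm i hi)
  have hj12 := hm12 j hj
  obtain ⟨p₀⟩ := hc.preconnected ⟨i, by omega⟩ ⟨j, by omega⟩
  have := closed_eq hT (fun i => m.testBit i.val = true) (fun i => X.testBit i.val = true)
    hint ?_ _ _ _ p₀.bypass p₀.bypass_isPath le_rfl hi hj
  · simp only at this
    rw [hj'] at this
    exact absurd this (by simp)
  · intro a b ha hb hab
    have : (step m X).testBit b.val = true := by
      rw [step_testBit]
      exact Or.inr ⟨hb, a.val, a.isLt, ha, hab⟩
    rwa [h2] at this

theorem no_cists : ¬ HasTwoCISTs G := by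
  classical
  rintro ⟨T₁, T₂, hT₁, hT₂, h₁, h₂, hci⟩
  obtain ⟨m, hm, hm'⟩ : ∃ m < 4096, ∀ i : Fin 28, i.val < 12 →
      (m.testBit i.val = true ↔ Internal T₁ i) := by
    refine ⟨Nat.ofBits (fun i : Fin 12 => decide (Internal T₁ ⟨i.val, by omega⟩)),
      Nat.ofBits_lt_two_pow _, ?_⟩
    intro i hi
    rw [Nat.testBit_ofBits_lt _ _ hi]
    simp
  have hm2 : ∀ i : Fin 28, i.val < 12 → Internal T₂ i → (4095 ^^^ m).testBit i.val = true := by
    intro i hi h
    rw [Nat.testBit_xor]
    have e1 := (show ∀ i < 12, (4095).testBit i = true by decide +kernel) i.val hi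
    rw [e1]
    have e2 : ¬ m.testBit i.val = true := by
      rw [hm' i hi]
      exact fun h' => not_internal_both h₁ h₂ hci h' h
    rw [Bool.not_eq_true] at e2
    rw [e2]
    rfl
  have c1 := not_cut hT₁ h₁.1 m hm (fun i hi h => (hm' i hi).mpr h)
  have hm4 : 4095 ^^^ m < 4096 := Nat.xor_lt_two_pow (n := 12) (by norm_num) hm
  have c2 := not_cut hT₂ h₂.1 (4095 ^^^ m) hm4 hm2
  have hmono : mono m = true := by
    have := colour_table m hm
    rw [c1, c2] at this
    simpa using this
  rw [mono, List.any_eq_true] at hmono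
  obtain ⟨f, hf, hf'⟩ := hmono
  obtain ⟨w, hw, hw12, hnb⟩ := face_ins_table f hf
  simp only [Bool.and_eq_true, beq_iff_eq] at hf'
  obtain ⟨x, hx, hxi⟩ := exists_internal hT₁ h₁.1 ⟨w, hw⟩ hw12
  obtain ⟨y, hy, hyi⟩ := exists_internal hT₂ h₂.1 ⟨w, hw⟩ hw12
  have hx12 := (ins_table w hw hw12 x.val x.isLt hx).1
  have hy12 := (ins_table w hw hw12 y.val y.isLt hy).1
  have hx' := (hm' x hx12).mpr hxi
  have hy' := hm2 y hy12 hyi
  have e1 := (show ∀ i < 12, (4095).testBit i = true by decide +kernel) y.val hy12
  rw [Nat.testBit_xor, e1] at hy'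
  have hy'' : m.testBit y.val = false := by simpa using hy'
  have hxf := hnb x.val x.isLt hx
  have hyf := hnb y.val y.isLt hy
  rcases hxf with e | e | e <;> rcases hyf with e' | e' | e' <;> rw [e] at hx' <;>
    rw [e'] at hy'' <;> simp_all

/-- **Disproof.** There is a 3-connected triangulated disc with a 3-outerplanar embedding which has
no two completely independent spanning trees. -/
theorem result : ∃ P : PlaneGraph (Fin 28), ThreeConnected P.graph ∧ P.IsTriangulatedDisc ∧
    P.IsThreeOuterplanar ∧ ¬ HasTwoCISTs P.graph :=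
  ⟨P, threeConnected, triangulated, threeOuterplanar, no_cists⟩

end Pool.Agent.Results.MP_6a18d8_co.AntiprismDisc
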